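import Mathlib
import Pool.Agent.Helper844.Sys

/-!
# Isomorphism of finite presentations is a complete c.e. equivalence relation: the parts

Project ISO (frozen statement S14615, problem MP_3d45c4_lc), by helper817.
-/

set_option autoImplicit false

namespace Pool.Agent.Y817.ISO

open Pool.Agent.Helper844.Sys

/-- Torsion-free. -/
def TF (G : Type) [Group G] : Prop := ∀ x : G, IsOfFinOrder x → x = 1

/-! ### Arithmetic -/

/-- `L` is a system of equations which defines `R` (on the values of the unknowns `n`, `m`). -/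
def Defines (R : ℕ → ℕ → Prop) {X : Type} (n m : X) (L : List (Eqn X)) : Prop :=
  ∀ a b : ℤ, (∃ v : X → ℤ, v n = a ∧ v m = b ∧ ∀ q ∈ L, q.Holds v) ↔
    ∃ a' b' : ℕ, a = a' ∧ b = b' ∧ R a' b'

/-- ARITH. -/
def StmArith : Prop := ∀ R : ℕ → ℕ → Prop, REPred (fun p : ℕ × ℕ => R p.1 p.2) →
  ∃ (X : Type) (_ : Fintype X) (n m : X) (L : List (Eqn X)), n ≠ m ∧ Defines R n m L

/-! ### The affine graph -/

/-- Rules: the rule `i` joins `(src i, μ i w + a i)` to `(tgt i, ν i w + b i)` for all `w`. -/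
structure Rules (P ι J : Type) where
  dim : ι → ℕ
  src : ι → P
  tgt : ι → P
  μ : ∀ i, (Fin (dim i) → ℤ) →+ (J → ℤ)
  ν : ∀ i, (Fin (dim i) → ℤ) →+ (J → ℤ)
  a : ι → (J → ℤ)
  b : ι → (J → ℤ)
  μ_inj : ∀ i, Function.Injective (μ i)
  ν_inj : ∀ i, Function.Injective (ν i)

/-- One step. -/
inductive Step {P ι J : Type} (D : Rules P ι J) : P × (J → ℤ) → P × (J → ℤ) → Prop
  | mk (i : ι) (w : Fin (D.dim i) → ℤ) :
      Step D (D.src i, D.μ i w + D.a i) (D.tgt i, D.ν i w + D.b i)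

/-- GRAPH. -/
def StmGraph : Prop := ∀ R : ℕ → ℕ → Prop, Equivalence R →
  ∀ (X : Type) [Fintype X] (n m : X) (L : List (Eqn X)), n ≠ m → Defines R n m L →
  ∃ (P ι J : Type) (_ : Fintype P) (_ : Fintype ι) (_ : Fintype J) (_ : DecidableEq J)
    (D : Rules P ι J) (B : P) (e : J), ∀ k k' : ℤ,
      Relation.EqvGen (Step D) (B, Pi.single e k) (B, Pi.single e k') ↔
        (k = k' ∨ ∃ a b : ℕ, k = a ∧ k' = b ∧ R a b)

/-! ### Multiple HNN extensions -/

/-- MHNN. -/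
def StmMHNN : Prop := ∀ (G : Type) [Group G] (ι : Type) [Finite ι] (Q : ι → Type)
  [∀ i, Group (Q i)] (f g : ∀ i, Q i →* G), (∀ i, Function.Injective (f i)) →
  (∀ i, Function.Injective (g i)) →
  ∃ (K : Type) (_ : Group K) (of : G →* K) (r : ι → K), Function.Injective of ∧
    (∀ i q, r i * of (f i q) = of (g i q) * r i) ∧ (TF G → TF K) ∧
    Subgroup.closure (Set.range of ∪ Set.range r) = ⊤ ∧
    ∀ (H : Type) [Group H] (φ : G →* H) (s : ι → H),
      (∀ i q, s i * φ (f i q) = φ (g i q) * s i) →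
      ∃ Φ : K →* H, (∀ x, Φ (of x) = φ x) ∧ ∀ i, Φ (r i) = s i

/-! ### The base group -/

theorem aut_ext {α : Type} {e f : MulAut (FreeGroup α)}
    (h : ∀ a, e (FreeGroup.of a) = f (FreeGroup.of a)) : e = f := by
  apply MulEquiv.ext
  intro x
  exact DFunLike.congr_fun (FreeGroup.ext_hom (f := e.toMonoidHom) (g := f.toMonoidHom) h) x

/-- Translation of the index. -/
def tr (P J : Type) (v : J → ℤ) : P × (J → ℤ) ≃ P × (J → ℤ) where
  toFun x := (x.1, x.2 - v)
  invFun x := (x.1, x.2 + v)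
  left_inv := by rintro ⟨p, n⟩; simp
  right_inv := by rintro ⟨p, n⟩; simp

/-- The action of translations on the free group. -/
def act (P J : Type) : Multiplicative (J → ℤ) →* MulAut (FreeGroup (P × (J → ℤ))) where
  toFun v := FreeGroup.freeGroupCongr (tr P J v.toAdd)
  map_one' := by
    apply aut_ext
    rintro ⟨p, n⟩
    simp [tr]
  map_mul' v w := by
    apply aut_ext
    rintro ⟨p, n⟩
    simp only [FreeGroup.freeGroupCongr_apply, MulAut.mul_apply, FreeGroup.map.of, tr,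
      Equiv.coe_fn_mk, toAdd_mul]
    congr 2
    abel

/-- The free product of `P` infinite cyclic groups and the free abelian group `J → ℤ`. -/
abbrev G0 (P J : Type) : Type := FreeGroup (P × (J → ℤ)) ⋊[act P J] Multiplicative (J → ℤ)

/-- The free abelian group in `G0`. -/
def X0 (P J : Type) : Multiplicative (J → ℤ) →* G0 P J := SemidirectProduct.inr

/-- The generator `t_p` of `G0`. -/
def t0 {P J : Type} (p : P) : G0 P J := SemidirectProduct.inl (FreeGroup.of (p, 0))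

/-- `T p v = X(v)⁻¹ t_p X(v)`. -/
def T {P J H : Type} [Group H] (X : Multiplicative (J → ℤ) →* H) (t : P → H) (p : P) (v : J → ℤ) :
    H := (X (Multiplicative.ofAdd v))⁻¹ * t p * X (Multiplicative.ofAdd v)

/-- BASE. -/
def StmBase : Prop := ∀ (P J : Type) [Finite J], TF (G0 P J) ∧
  Subgroup.closure (Set.range (X0 P J) ∪ Set.range (t0 : P → G0 P J)) = ⊤ ∧
  (∀ (H : Type) [Group H] (X : Multiplicative (J → ℤ) →* H) (t : P → H),
    ∃ Φ : G0 P J →* H, (∀ v, Φ (X0 P J v) = X v) ∧ ∀ p, Φ (t0 p) = t p) ∧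
  ∀ (d : ℕ) (μ : (Fin d → ℤ) →+ (J → ℤ)), Function.Injective μ → ∀ (p : P) (a : J → ℤ),
    ∃ f : G0 Unit (Fin d) →* G0 P J, Function.Injective f ∧
      (∀ w : Fin d → ℤ, f (X0 Unit (Fin d) (Multiplicative.ofAdd w)) =
        X0 P J (Multiplicative.ofAdd (μ w))) ∧
      f (t0 ()) = T (X0 P J) t0 p a

/-! ### The group of the rules -/

/-- The relations of the rules. -/
structure Rel {P ι J : Type} (D : Rules P ι J) (H : Type) [Group H]
    (X : Multiplicative (J → ℤ) →* H) (t : P → H) (r : ι → H) : Prop where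
  shift : ∀ i (w : Fin (D.dim i) → ℤ), r i * X (Multiplicative.ofAdd (D.μ i w)) =
    X (Multiplicative.ofAdd (D.ν i w)) * r i
  rule : ∀ i, r i * T X t (D.src i) (D.a i) = T X t (D.tgt i) (D.b i) * r i

/-- MODEL. -/
def StmModel : Prop := ∀ (P ι J : Type) [Finite J] (D : Rules P ι J) (C : P → (J → ℤ) → Prop),
  (∀ i w, C (D.src i) (D.μ i w + D.a i) ↔ C (D.tgt i) (D.ν i w + D.b i)) →
  ∃ (M : Type) (_ : Group M) (X : Multiplicative (J → ℤ) →* M) (t : P → M) (r : ι → M),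
    Rel D M X t r ∧ ∃ St : Subgroup M, (∀ i, r i ∈ St) ∧ ∀ p v, T X t p v ∈ St ↔ C p v

/-- KK: the group `K` of the rules. -/
def StmK : Prop := ∀ (P ι J : Type) [Finite ι] [Finite J] (D : Rules P ι J),
  ∃ (K : Type) (_ : Group K) (X : Multiplicative (J → ℤ) →* K) (t : P → K) (r : ι → K),
    Rel D K X t r ∧ TF K ∧
    Subgroup.closure (Set.range X ∪ Set.range t ∪ Set.range r) = ⊤ ∧
    (∀ (H : Type) [Group H] (X' : Multiplicative (J → ℤ) →* H) (t' : P → H) (r' : ι → H),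
      Rel D H X' t' r' → ∃ Φ : K →* H, (∀ v, Φ (X v) = X' v) ∧ (∀ p, Φ (t p) = t' p) ∧
        ∀ i, Φ (r i) = r' i) ∧
    ∀ p p' v v', (∃ ρ ∈ Subgroup.closure (Set.range r), T X t p v = ρ * T X t p' v' * ρ⁻¹) ↔
      Relation.EqvGen (Step D) (p, v) (p', v')

/-! ### HNN extensions with the identity on a subgroup -/

/-- The HNN extension of `G` in which the stable letter centralises `S`. -/
abbrev CE (G : Type) [Group G] (S : Subgroup G) : Type := HNNExtension G S S (MulEquiv.refl S)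

/-- LEMA. -/
def StmLemA : Prop := ∀ (G : Type) [Group G] (S M L : Subgroup G), S ⊓ M ≤ L → L ≤ M →
  ∀ x : G, (HNNExtension.of x : CE G S) ∈ Subgroup.closure
    ((fun g : G => (HNNExtension.t * HNNExtension.of g * HNNExtension.t⁻¹ : CE G S)) '' M ∪
      (fun g : G => (HNNExtension.of g : CE G S)) '' L) → x ∈ L

/-- SUBHNN. -/
def StmSubHNN : Prop := ∀ (A G : Type) [Group A] [Group G] (α : A →* G) (SA : Subgroup A)
  (S : Subgroup G), Function.Injective α → (∀ a, α a ∈ S ↔ a ∈ SA) →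
  ∃ Φ : CE A SA →* CE G S, Function.Injective Φ ∧
    (∀ a, Φ (HNNExtension.of a) = HNNExtension.of (α a)) ∧ Φ HNNExtension.t = HNNExtension.t

/-- SQUARE. -/
def StmSquare : Prop := ∀ (K : Type) [Group K] (Q : Subgroup K),
  ∃ ψ : CE K Q →* CE K Q, Function.Injective ψ ∧
    (∀ k, ψ (HNNExtension.of k) = HNNExtension.of k) ∧ ψ HNNExtension.t = HNNExtension.t ^ 2

/-! ### The tower -/

/-- The situation at the bottom of the tower: `s n = x⁻ⁿ t xⁿ`, `π` is a retraction on `Q` killing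
`t`. -/
structure Bot (K : Type) [Group K] (Q Rr : Subgroup K) (π : K →* K) (x t : K) : Prop where
  tf : TF K
  mem : ∀ k, π k ∈ Q
  fix : ∀ q ∈ Q, π q = q
  le : Rr ≤ Q
  x_mem : x ∈ Q
  t_one : π t = 1

/-- `s n = x⁻ⁿ t xⁿ`. -/
def s {K : Type} [Group K] (x t : K) (n : ℤ) : K := x ^ (-n) * t * x ^ n

/-- `s n = ρ s m ρ⁻¹` with `ρ ∈ Rr`. -/
def Conn {K : Type} [Group K] (Rr : Subgroup K) (x t : K) (n m : ℤ) : Prop :=
  ∃ ρ ∈ Rr, s x t n = ρ * s x t m * ρ⁻¹

/-- GMODEL. -/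
def StmGModel : Prop := ∀ (K : Type) [Group K] (Q Rr : Subgroup K) (π : K →* K) (x t : K),
  Bot K Q Rr π x t →
  ∃ (M : Type) (_ : Group M) (φ : K →* M) (z u : M),
    (∀ q ∈ Q, Commute z (φ q)) ∧ (∀ k, Commute u (φ k)) ∧ u⁻¹ * z * u = z ^ 2 ∧
    ∀ n : ℤ, (∀ m : ℤ, Conn Rr x t n m → 0 ≤ m) → ∀ a : ℤ,
      ((φ (s x t n))⁻¹ * z * φ (s x t n)) ^ a ∈ Subgroup.closure
        (((Subgroup.closure {φ x * u, (φ t)⁻¹ * z ^ 2 * φ t} ⊓
          Subgroup.closure (Set.range φ ∪ {z}) : Subgroup M) : Set M) ∪ φ '' Rr) →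
      ∀ g : ℤ, (∀ m : ℤ, Conn Rr x t n m → g ∣ 2 ^ (m.toNat + 1)) → g ∣ a

/-- The relations of the group `U`. -/
structure RelU {K : Type} [Group K] (Q Rr : Subgroup K) (x t : K) (H : Type) [Group H]
    (φ : K →* H) (z u v τ : H) : Prop where
  zq : ∀ q ∈ Q, Commute z (φ q)
  uk : ∀ k, Commute u (φ k)
  uz : u⁻¹ * z * u = z ^ 2
  vx : Commute v (φ x * u)
  vt : Commute v ((φ t)⁻¹ * z ^ 2 * φ t)
  τk : ∀ k, Commute τ (v * φ k * v⁻¹)
  τz : Commute τ (v * z * v⁻¹)
  τr : ∀ ρ ∈ Rr, Commute τ (φ ρ)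

/-- The group `B_g = ⟨t, z | [t, z ^ g]⟩`. -/
abbrev Bg (g : ℤ) : Type := CE (Multiplicative ℤ) (Subgroup.zpowers (Multiplicative.ofAdd g))

/-- TOWER. -/
def StmTower : Prop := ∀ (K : Type) [Group K] (Q Rr : Subgroup K) (π : K →* K) (x t : K),
  Bot K Q Rr π x t →
  ∃ (U : Type) (_ : Group U) (φ : K →* U) (z u v τ : U), TF U ∧
    RelU Q Rr x t U φ z u v τ ∧ Subgroup.closure (Set.range φ ∪ {z, u, v, τ}) = ⊤ ∧
    (∀ (H : Type) [Group H] (φ' : K →* H) (z' u' v' τ' : H), RelU Q Rr x t H φ' z' u' v' τ' →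
      ∃ Φ : U →* H, (∀ k, Φ (φ k) = φ' k) ∧ Φ z = z' ∧ Φ u = u' ∧ Φ v = v' ∧ Φ τ = τ') ∧
    ∀ n : ℤ, 0 ≤ n → (∀ m : ℤ, Conn Rr x t n m → 0 ≤ m) → ∀ g : ℤ,
      (∀ m : ℤ, Conn Rr x t n m → g ∣ 2 ^ (m.toNat + 1)) →
      (∃ m : ℤ, Conn Rr x t n m ∧ g = 2 ^ (m.toNat + 1)) →
      ∃ β : Bg g →* U, Function.Injective β ∧
        β (HNNExtension.of (Multiplicative.ofAdd 1)) = z ∧
        β HNNExtension.t = φ (s x t n) * τ * (φ (s x t n))⁻¹

/-! ### The amalgam -/

/-- The factors of the amalgam. -/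
def Fam (E U : Type) : Bool → Type
  | false => U
  | true => E × Multiplicative (ZMod 5)

instance (E U : Type) [Group E] [Group U] : ∀ b, Group (Fam E U b)
  | false => inferInstanceAs (Group U)
  | true => inferInstanceAs (Group (E × Multiplicative (ZMod 5)))

/-- The embeddings of the amalgamated subgroup. -/
def famHom {E U : Type} [Group E] [Group U] (β : E →* U) : ∀ b, E →* Fam E U b
  | false => β
  | true => MonoidHom.inl E (Multiplicative (ZMod 5))

/-- The amalgam `U *_E (E × C₅)`. -/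
abbrev Amal {E U : Type} [Group E] [Group U] (β : E →* U) : Type := Monoid.PushoutI (famHom β)

/-- AMUP: the universal property of the amalgam. -/
def StmAmUP : Prop := ∀ (E U : Type) [Group E] [Group U] (β : E →* U),
  ∃ (ο : U →* Amal β) (c : Amal β), c ^ 5 = 1 ∧ (∀ e, Commute c (ο (β e))) ∧
    Subgroup.closure (Set.range ο ∪ {c}) = ⊤ ∧
    ∀ (H : Type) [Group H] (φ : U →* H) (c' : H), c' ^ 5 = 1 → (∀ e, Commute c' (φ (β e))) →
      ∃ Φ : Amal β →* H, (∀ x, Φ (ο x) = φ x) ∧ Φ c = c'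

/-- INV: the isomorphism type of the amalgam determines `g`. -/
def StmInv : Prop := ∀ (U : Type) [Group U] (a b : ℕ) (β : Bg (2 ^ (a + 1)) →* U)
  (β' : Bg (2 ^ (b + 1)) →* U), TF U → Function.Injective β → Function.Injective β' →
  Nonempty (Amal β ≃* Amal β') → a = b

/-! ### Codes -/

/-- The relators of a code. -/
def relSet (a : ℕ × List (List (ℕ × Bool))) : Set (FreeGroup (Fin a.1)) :=
  {g : FreeGroup (Fin a.1) | ∃ w ∈ a.2, g = FreeGroup.mk
    (w.filterMap (fun q => if h : q.1 < a.1 then some ((⟨q.1, h⟩ : Fin a.1), q.2) else none))}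

/-- The group of a code. -/
abbrev PG (a : ℕ × List (List (ℕ × Bool))) : Type := PresentedGroup (relSet a)

/-- The word `[c, κ_n]`, where `κ_n = s_n τ s_n⁻¹`, `s_n = x⁻ⁿ t xⁿ`. -/
def W {A : Type} (c x t τ : A) (n : ℕ) : List (A × Bool) :=
  (c, true) :: (List.replicate n (x, false) ++ (t, true) :: (List.replicate n (x, true) ++
    (τ, true) :: (List.replicate n (x, false) ++ (t, false) :: (List.replicate n (x, true) ++
    (c, false) :: (List.replicate n (x, false) ++ (t, true) :: (List.replicate n (x, true) ++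
    (τ, false) :: (List.replicate n (x, false) ++ (t, false) :: List.replicate n (x, true))))))))

/-- CODE. -/
def StmCode : Prop := ∀ (A : Type) [Fintype A] (c x t τ : A) (L : List (List (A × Bool))),
  ∃ f : ℕ → ℕ × List (List (ℕ × Bool)), Computable f ∧ ∀ n, Nonempty (PG (f n) ≃*
    PresentedGroup {g : FreeGroup A | ∃ w ∈ W c x t τ n :: L, g = FreeGroup.mk w})

/-- The relations of the final group (without the last one) in terms of the generators. -/
structure GenRel {P ι J : Type} [DecidableEq J] (D : Rules P ι J) (B : P) (e : J) (H : Type)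
    [Group H] (X : Multiplicative (J → ℤ) →* H) (t : P → H) (r : ι → H) (z u v τ c : H) :
    Prop where
  rel : Rel D H X t r
  zx : ∀ w, Commute z (X w)
  zr : ∀ i, Commute z (r i)
  ux : ∀ w, Commute u (X w)
  ut : ∀ p, Commute u (t p)
  ur : ∀ i, Commute u (r i)
  uz : u⁻¹ * z * u = z ^ 2
  vx : Commute v (X (Multiplicative.ofAdd (Pi.single e 1)) * u)
  vt : Commute v ((t B)⁻¹ * z ^ 2 * t B)
  τx : ∀ w, Commute τ (v * X w * v⁻¹)
  τt : ∀ p, Commute τ (v * t p * v⁻¹)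
  τr' : ∀ i, Commute τ (v * r i * v⁻¹)
  τz : Commute τ (v * z * v⁻¹)
  τr : ∀ i, Commute τ (r i)
  c5 : c ^ 5 = 1
  cz : Commute c z

/-- The generators of the final group. -/
abbrev Gen (P ι J : Type) : Type := J ⊕ P ⊕ ι ⊕ Fin 5

/-- PRES. -/
def StmPres : Prop := ∀ (P ι J : Type) [Fintype P] [Fintype ι] [Fintype J] [DecidableEq J]
  (D : Rules P ι J) (B : P) (e : J), ∃ L : List (List (Gen P ι J × Bool)),
    ∀ (H : Type) [Group H] (h : Gen P ι J → H),
      (∀ w ∈ L, FreeGroup.lift h (FreeGroup.mk w) = 1) ↔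
      ∃ X : Multiplicative (J → ℤ) →* H,
        (∀ j, X (Multiplicative.ofAdd (Pi.single j 1)) = h (Sum.inl j)) ∧
        GenRel D B e H X (fun p => h (Sum.inr (Sum.inl p)))
          (fun i => h (Sum.inr (Sum.inr (Sum.inl i)))) (h (Sum.inr (Sum.inr (Sum.inr 0))))
          (h (Sum.inr (Sum.inr (Sum.inr 1)))) (h (Sum.inr (Sum.inr (Sum.inr 2))))
          (h (Sum.inr (Sum.inr (Sum.inr 3)))) (h (Sum.inr (Sum.inr (Sum.inr 4))))

/-- RE. -/
def StmRE : Prop := REPred (fun p : (ℕ × List (List (ℕ × Bool))) × (ℕ × List (List (ℕ × Bool))) =>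
  Nonempty (PG p.1 ≃* PG p.2))

end Pool.Agent.Y817.ISO
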