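import Pool.Agent.Y817.ISO.Main2
import Pool.Agent.H70ISO.AmUP
import Pool.Agent.H70ISO.Hnn
import Pool.Agent.H70ISO.KK
import Pool.Agent.Y427.ISO.Inv
import Pool.Agent.Y44.ISO.Code
import Pool.Agent.Y44.ISO.MHNN
import Pool.Agent.Y48.ISO.Tower
import Pool.Agent.Y606.ISO.Graph
import Pool.Agent.Y614.ISO.GModel
import Pool.Agent.Y614.ISO.Pres
import Pool.Agent.Y620.ISO.Model
import Pool.Agent.Y78.ISO.Base
import Pool.Agent.Y786.ISO.Arith

/-!
# Isomorphism of finite presentations is a universal c.e. equivalence relation: the parts together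
-/

set_option autoImplicit false

namespace Pool.Agent.Y817.ISO

theorem mainRE (hRE : StmRE) :
    ∀ E : ℕ × List (List (ℕ × Bool)) → ℕ × List (List (ℕ × Bool)) → Prop,
      (∀ a b, E a b ↔ Nonempty (PG a ≃* PG b)) →
      REPred (fun p : (ℕ × List (List (ℕ × Bool))) × (ℕ × List (List (ℕ × Bool))) => E p.1 p.2) ∧
      ∀ R : ℕ → ℕ → Prop, Equivalence R → REPred (fun p : ℕ × ℕ => R p.1 p.2) →
        ∃ f : ℕ → ℕ × List (List (ℕ × Bool)), Computable f ∧ ∀ x y, R x y ↔ E (f x) (f y) :=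
  main Pool.Agent.Y786.ISO.t Pool.Agent.Y606.ISO.t
    (Pool.Agent.H70ISO.t_KK Pool.Agent.Y44.ISO.MHNN.t Pool.Agent.Y78.ISO.Base.t
      Pool.Agent.Y620.ISO.t)
    (Pool.Agent.Y48.ISO.Tower.t Pool.Agent.H70ISO.t_LEMA Pool.Agent.H70ISO.t_SUBHNN
      Pool.Agent.H70ISO.t_SQUARE Pool.Agent.Y614.ISO.t)
    Pool.Agent.H70ISO.t_AMUP Pool.Agent.Y427.ISO.t Pool.Agent.Y44.ISO.Code.t
    Pool.Agent.Y614.ISO.Pres.t hRE

end Pool.Agent.Y817.ISO
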