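import Pool.Agent.Y817.ISO.Stm

set_option autoImplicit false

namespace Pool.Agent.Y817.ISO

open Pool.Agent.Helper844.Sys

/-- A group with the universal property of a presentation is the presented group. -/
theorem up_iso {A : Type} (rels : Set (FreeGroup A)) (G : Type) [Group G] (g : A → G)
    (hgen : Subgroup.closure (Set.range g) = ⊤) (hrel : ∀ w ∈ rels, FreeGroup.lift g w = 1)
    (hup : ∀ (H : Type) [Group H] (h : A → H), (∀ w ∈ rels, FreeGroup.lift h w = 1) →
      ∃ Φ : G →* H, ∀ a, Φ (g a) = h a) :
    Nonempty (PresentedGroup rels ≃* G) := by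
  let f : PresentedGroup rels →* G := PresentedGroup.toGroup hrel
  have hf : ∀ a, f (PresentedGroup.of a) = g a := fun a => PresentedGroup.toGroup.of hrel
  have h1 : ∀ w ∈ rels, FreeGroup.lift (fun a => (PresentedGroup.of a : PresentedGroup rels)) w = 1 := by
    intro w hw
    have : FreeGroup.lift (fun a => (PresentedGroup.of a : PresentedGroup rels)) =
        PresentedGroup.mk rels := by
      apply FreeGroup.ext_hom
      intro a
      simp [PresentedGroup.of]
    rw [this]
    exact PresentedGroup.one_of_mem hw
  obtain ⟨k, hk⟩ := hup _ _ h1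
  refine ⟨MonoidHom.toMulEquiv f k ?_ ?_⟩
  · apply PresentedGroup.ext
    intro a
    simp [hf, hk]
  · have : ∀ x ∈ Subgroup.closure (Set.range g), f (k x) = x := by
      intro x hx
      induction hx using Subgroup.closure_induction with
      | mem x hx =>
        obtain ⟨a, rfl⟩ := hx
        rw [hk, hf]
      | one => simp
      | mul x y _ _ hx hy => rw [map_mul, map_mul, hx, hy]
      | inv x _ hx => rw [map_inv, map_inv, hx]
    ext x
    exact this x (by rw [hgen]; trivial)

/-- commuting with a generating set -/
theorem commute_closure {H : Type} [Group H] (z : H) (S : Set H) (h : ∀ x ∈ S, Commute z x) :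
    ∀ x ∈ Subgroup.closure S, Commute z x := by
  intro x hx
  induction hx using Subgroup.closure_induction with
  | mem x hx => exact h x hx
  | one => exact Commute.one_right z
  | mul x y _ _ hx hy => exact hx.mul_right hy
  | inv x _ hx => exact hx.inv_right

theorem commute_map_closure {K H : Type} [Group K] [Group H] (f : K →* H) (z : H) (S : Set K)
    (h : ∀ x ∈ S, Commute z (f x)) : ∀ x ∈ Subgroup.closure S, Commute z (f x) := by
  intro x hx
  induction hx using Subgroup.closure_induction with
  | mem x hx => exact h x hx
  | one => rw [map_one]; exact Commute.one_right z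
  | mul x y _ _ hx hy => rw [map_mul]; exact hx.mul_right hy
  | inv x _ hx => rw [map_inv]; exact hx.inv_right

theorem Bg_closure (g : ℤ) : Subgroup.closure
    ({HNNExtension.of (Multiplicative.ofAdd 1), HNNExtension.t} : Set (Bg g)) = ⊤ := by
  rw [eq_top_iff]
  intro x _
  induction x using HNNExtension.induction_on with
  | of k =>
    have : (HNNExtension.of k : Bg g) = (HNNExtension.of (Multiplicative.ofAdd 1)) ^ (k.toAdd) := by
      rw [← map_zpow]
      congr 1
      apply Multiplicative.toAdd.injective
      simp
    rw [this]
    exact Subgroup.zpow_mem _ (Subgroup.subset_closure (by simp)) _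
  | t => exact Subgroup.subset_closure (by simp)
  | mul x y hx hy => exact Subgroup.mul_mem _ (hx trivial) (hy trivial)
  | inv x hx => exact Subgroup.inv_mem _ (hx trivial)

theorem commute_beta {U H : Type} [Group U] [Group H] (g : ℤ) (β : Bg g →* U) (Φ : U →* H) (c : H)
    (h1 : Commute c (Φ (β (HNNExtension.of (Multiplicative.ofAdd 1)))))
    (h2 : Commute c (Φ (β HNNExtension.t))) (e : Bg g) : Commute c (Φ (β e)) := by
  refine commute_map_closure (Φ.comp β) c _ ?_ e (by rw [Bg_closure]; trivial)
  intro x hx
  rcases hx with rfl | hx
  · exact h1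
  · rw [Set.mem_singleton_iff.1 hx]
    exact h2

end Pool.Agent.Y817.ISO
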