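import Pool.Agent.Y817.ISO.Asm

set_option autoImplicit false

namespace Pool.Agent.Y817.ISO

open Pool.Agent.Helper844.Sys

section amalIso

variable {U : Type} [Group U] {g : ℤ}

/-- Conjugate stable letters give isomorphic amalgams: one direction. -/
theorem amal_hom (β β' : Bg g →* U) (ρ : U)
    (hz : β (HNNExtension.of (Multiplicative.ofAdd 1)) =
      β' (HNNExtension.of (Multiplicative.ofAdd 1)))
    (hρz : Commute ρ (β (HNNExtension.of (Multiplicative.ofAdd 1))))
    (hκ : β HNNExtension.t = ρ * β' HNNExtension.t * ρ⁻¹)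
    (ο : U →* Amal β) (c : Amal β)
    (hup : ∀ (H : Type) [Group H] (φ : U →* H) (c' : H), c' ^ 5 = 1 →
      (∀ e, Commute c' (φ (β e))) → ∃ Φ : Amal β →* H, (∀ x, Φ (ο x) = φ x) ∧ Φ c = c')
    (ο' : U →* Amal β') (c' : Amal β') (hc5 : c' ^ 5 = 1) (hcc : ∀ e, Commute c' (ο' (β' e))) :
    ∃ Φ : Amal β →* Amal β', (∀ x, Φ (ο x) = ο' x) ∧ Φ c = ο' ρ * c' * (ο' ρ)⁻¹ := by
  apply hup
  · rw [← MulAut.conj_apply, ← map_pow, hc5, map_one]
  · intro e
    have key : ∀ x : U, Commute c' (ο' x) → Commute (ο' ρ * c' * (ο' ρ)⁻¹) (ο' (ρ * x * ρ⁻¹)) := by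
      intro x hx
      have : ο' (ρ * x * ρ⁻¹) = ο' ρ * ο' x * (ο' ρ)⁻¹ := by simp
      rw [this]
      exact (SemiconjBy.conj_iff.2 hx : Commute _ _)
    refine commute_beta g β ο' _ ?_ ?_ e
    · have h1 := key _ (hcc (HNNExtension.of (Multiplicative.ofAdd 1)))
      rw [← hz] at h1
      have h2 : ρ * β (HNNExtension.of (Multiplicative.ofAdd 1)) * ρ⁻¹ =
          β (HNNExtension.of (Multiplicative.ofAdd 1)) := by
        rw [hρz.eq, mul_inv_cancel_right]
      rwa [h2] at h1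
    · have h1 := key _ (hcc HNNExtension.t)
      rwa [← hκ] at h1

theorem amal_iso (hAm : StmAmUP) (β β' : Bg g →* U) (ρ : U)
    (hz : β (HNNExtension.of (Multiplicative.ofAdd 1)) =
      β' (HNNExtension.of (Multiplicative.ofAdd 1)))
    (hρz : Commute ρ (β (HNNExtension.of (Multiplicative.ofAdd 1))))
    (hκ : β HNNExtension.t = ρ * β' HNNExtension.t * ρ⁻¹) : Nonempty (Amal β ≃* Amal β') := by
  obtain ⟨ο, c, hc5, hcc, hgen, hup⟩ := hAm _ _ β
  obtain ⟨ο', c', hc5', hcc', hgen', hup'⟩ := hAm _ _ β'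
  obtain ⟨Φ, hΦ, hΦc⟩ := amal_hom β β' ρ hz hρz hκ ο c hup ο' c' hc5' hcc'
  obtain ⟨Ψ, hΨ, hΨc⟩ := amal_hom β' β ρ⁻¹ hz.symm (by rw [← hz]; exact hρz.inv_left)
    (by rw [hκ]; group) ο' c' hup' ο c hc5 hcc
  refine ⟨MonoidHom.toMulEquiv Φ Ψ ?_ ?_⟩
  · have : ∀ x ∈ Subgroup.closure (Set.range ο ∪ {c}), Ψ (Φ x) = x := by
      intro x hx
      induction hx using Subgroup.closure_induction with
      | mem x hx =>
        rcases hx with ⟨a, rfl⟩ | hx
        · rw [hΦ, hΨ]
        · rw [Set.mem_singleton_iff.1 hx, hΦc]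
          simp only [map_mul, map_inv, hΨ, hΨc]
          group
      | one => simp
      | mul x y _ _ hx hy => rw [map_mul, map_mul, hx, hy]
      | inv x _ hx => rw [map_inv, map_inv, hx]
    refine MonoidHom.ext fun x => ?_
    exact this x (by rw [hgen]; trivial)
  · have : ∀ x ∈ Subgroup.closure (Set.range ο' ∪ {c'}), Φ (Ψ x) = x := by
      intro x hx
      induction hx using Subgroup.closure_induction with
      | mem x hx =>
        rcases hx with ⟨a, rfl⟩ | hx
        · rw [hΨ, hΦ]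
        · rw [Set.mem_singleton_iff.1 hx, hΨc]
          simp only [map_mul, map_inv, hΦ, hΦc]
          group
      | one => simp
      | mul x y _ _ hx hy => rw [map_mul, map_mul, hx, hy]
      | inv x _ hx => rw [map_inv, map_inv, hx]
    refine MonoidHom.ext fun x => ?_
    exact this x (by rw [hgen']; trivial)

end amalIso

/-- The value of the word `W`. -/
theorem lift_W {A H : Type} [Group H] (h : A → H) (c x t τ : A) (n : ℕ) :
    FreeGroup.lift h (FreeGroup.mk (W c x t τ n)) =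
      h c * ((h x ^ n)⁻¹ * h t * h x ^ n * h τ * ((h x ^ n)⁻¹ * h t * h x ^ n)⁻¹) * (h c)⁻¹ *
        ((h x ^ n)⁻¹ * h t * h x ^ n * h τ * ((h x ^ n)⁻¹ * h t * h x ^ n)⁻¹)⁻¹ := by
  have hrep : ∀ (b : Bool) (a : A) (m : ℕ),
      ((List.replicate m (a, b)).map fun y : A × Bool => cond y.2 (h y.1) (h y.1)⁻¹).prod =
        (cond b (h a) (h a)⁻¹) ^ m := by
    intro b a m
    simp [List.map_replicate, List.prod_replicate]
  rw [FreeGroup.lift_mk]
  unfold W
  simp only [List.map_cons, List.map_append, List.prod_cons, List.prod_append, hrep, cond_true,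
    cond_false]
  simp only [inv_pow]
  group

end Pool.Agent.Y817.ISO
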