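import Pool.Agent.Y817.ISO.Asm2

set_option autoImplicit false

namespace Pool.Agent.Y817.ISO

open Pool.Agent.Helper844.Sys

section bottom

variable {P ι J : Type} [DecidableEq J] {D : Rules P ι J} {K : Type} [Group K]
  {X : Multiplicative (J → ℤ) →* K} {t : P → K} {r : ι → K}

theorem X_single (e : J) (n : ℤ) : X (Multiplicative.ofAdd (Pi.single e n)) =
    X (Multiplicative.ofAdd (Pi.single e 1)) ^ n := by
  rw [← map_zpow]
  congr 1
  apply Multiplicative.toAdd.injective
  simp only [toAdd_ofAdd, toAdd_zpow]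
  rw [← Pi.single_smul, smul_eq_mul, mul_one]

theorem s_eq (B : P) (e : J) (n : ℤ) :
    s (X (Multiplicative.ofAdd (Pi.single e 1))) (t B) n = T X t B (Pi.single e n) := by
  unfold s T
  rw [X_single e n, zpow_neg]

/-- The bottom of the tower from the properties of `K`. -/
theorem exists_bot (hrel : Rel D K X t r) (htf : TF K)
    (hgen : Subgroup.closure (Set.range X ∪ Set.range t ∪ Set.range r) = ⊤)
    (hup : ∀ (H : Type) [Group H] (X' : Multiplicative (J → ℤ) →* H) (t' : P → H) (r' : ι → H),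
      Rel D H X' t' r' → ∃ Φ : K →* H, (∀ v, Φ (X v) = X' v) ∧ (∀ p, Φ (t p) = t' p) ∧
        ∀ i, Φ (r i) = r' i) (B : P) (e : J) :
    ∃ π : K →* K, Bot K (Subgroup.closure (Set.range X ∪ Set.range r))
      (Subgroup.closure (Set.range r)) π (X (Multiplicative.ofAdd (Pi.single e 1))) (t B) := by
  have hrel' : Rel D K X (fun _ => 1) r := by
    refine ⟨hrel.shift, fun i => ?_⟩
    simp [T]
  obtain ⟨π, h1, h2, h3⟩ := hup K X (fun _ => 1) r hrel'
  refine ⟨π, htf, ?_, ?_, ?_, ?_, h2 B⟩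
  · intro k
    have hk : k ∈ Subgroup.closure (Set.range X ∪ Set.range t ∪ Set.range r) := by
      rw [hgen]; trivial
    induction hk using Subgroup.closure_induction with
    | mem x hx =>
      rcases hx with (⟨v, rfl⟩ | ⟨p, rfl⟩) | ⟨i, rfl⟩
      · rw [h1]
        exact Subgroup.subset_closure (Or.inl ⟨v, rfl⟩)
      · rw [h2]
        exact Subgroup.one_mem _
      · rw [h3]
        exact Subgroup.subset_closure (Or.inr ⟨i, rfl⟩)
    | one => rw [map_one]; exact Subgroup.one_mem _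
    | mul x y _ _ hx hy => rw [map_mul]; exact Subgroup.mul_mem _ hx hy
    | inv x _ hx => rw [map_inv]; exact Subgroup.inv_mem _ hx
  · intro q hq
    induction hq using Subgroup.closure_induction with
    | mem x hx =>
      rcases hx with ⟨v, rfl⟩ | ⟨i, rfl⟩
      · exact h1 v
      · exact h3 i
    | one => simp
    | mul x y _ _ hx hy => rw [map_mul, hx, hy]
    | inv x _ hx => rw [map_inv, hx]
  · exact Subgroup.closure_mono Set.subset_union_right
  · exact Subgroup.subset_closure (Or.inl ⟨_, rfl⟩)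

end bottom

/-- The relations of the final group hold for the generators of the tower, and conversely. -/
theorem relU_of_gen {P ι J : Type} [DecidableEq J] {D : Rules P ι J} {K : Type} [Group K]
    {X : Multiplicative (J → ℤ) →* K} {t : P → K} {r : ι → K}
    (hgen : Subgroup.closure (Set.range X ∪ Set.range t ∪ Set.range r) = ⊤) (B : P) (e : J)
    {H : Type} [Group H] (φ : K →* H) {X' : Multiplicative (J → ℤ) →* H} {z u v τ c : H}
    (hX : ∀ w, φ (X w) = X' w)
    (h : GenRel D B e H X' (fun p => φ (t p)) (fun i => φ (r i)) z u v τ c) :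
    RelU (Subgroup.closure (Set.range X ∪ Set.range r)) (Subgroup.closure (Set.range r))
      (X (Multiplicative.ofAdd (Pi.single e 1))) (t B) H φ z u v τ := by
  refine ⟨?_, ?_, h.uz, ?_, h.vt, ?_, h.τz, ?_⟩
  · refine commute_map_closure φ z _ ?_
    rintro _ (⟨w, rfl⟩ | ⟨i, rfl⟩)
    · rw [hX]; exact h.zx w
    · exact h.zr i
  · intro k
    refine commute_map_closure φ u _ ?_ k (by rw [hgen]; trivial)
    rintro _ ((⟨w, rfl⟩ | ⟨p, rfl⟩) | ⟨i, rfl⟩)
    · rw [hX]; exact h.ux w
    · exact h.ut p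
    · exact h.ur i
  · rw [hX]; exact h.vx
  · intro k
    refine commute_map_closure ((MulAut.conj v).toMonoidHom.comp φ) τ _ ?_ k
      (by rw [hgen]; trivial)
    rintro _ ((⟨w, rfl⟩ | ⟨p, rfl⟩) | ⟨i, rfl⟩)
    · have := h.τx w
      rw [← hX] at this
      exact this
    · exact h.τt p
    · exact h.τr' i
  · refine commute_map_closure φ τ _ ?_
    rintro _ ⟨i, rfl⟩
    exact h.τr i

theorem gen_of_relU {P ι J : Type} [DecidableEq J] {D : Rules P ι J} {K : Type} [Group K]
    {X : Multiplicative (J → ℤ) →* K} {t : P → K} {r : ι → K} (hrel : Rel D K X t r) (B : P)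
    (e : J) {H : Type} [Group H] (φ : K →* H) {z u v τ c : H}
    (h : RelU (Subgroup.closure (Set.range X ∪ Set.range r)) (Subgroup.closure (Set.range r))
      (X (Multiplicative.ofAdd (Pi.single e 1))) (t B) H φ z u v τ) (hc : c ^ 5 = 1)
    (hcz : Commute c z) :
    GenRel D B e H (φ.comp X) (fun p => φ (t p)) (fun i => φ (r i)) z u v τ c := by
  refine ⟨⟨?_, ?_⟩, ?_, ?_, ?_, ?_, ?_, h.uz, h.vx, h.vt, ?_, ?_, ?_, h.τz, ?_, hc, hcz⟩
  · intro i w
    have := congrArg φ (hrel.shift i w)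
    simpa using this
  · intro i
    have := congrArg φ (hrel.rule i)
    simpa [T] using this
  · intro w
    exact h.zq _ (Subgroup.subset_closure (Or.inl ⟨w, rfl⟩))
  · intro i
    exact h.zq _ (Subgroup.subset_closure (Or.inr ⟨i, rfl⟩))
  · intro w
    exact h.uk _
  · intro p
    exact h.uk _
  · intro i
    exact h.uk _
  · intro w
    exact h.τk _
  · intro p
    exact h.τk _
  · intro i
    exact h.τk _
  · intro i
    exact h.τr _ (Subgroup.subset_closure ⟨i, rfl⟩)

/-- The commutator of the word `W` is trivial iff `c` commutes with `κ_n`. -/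
theorem W_iff {A H : Type} [Group H] (h : A → H) (c x t τ : A) (n : ℕ) :
    FreeGroup.lift h (FreeGroup.mk (W c x t τ n)) = 1 ↔
      Commute (h c) (s (h x) (h t) n * h τ * (s (h x) (h t) n)⁻¹) := by
  rw [lift_W]
  unfold s
  rw [zpow_neg, zpow_natCast, mul_inv_eq_one, mul_inv_eq_iff_eq_mul]
  rfl

/-- The index of the class. -/
theorem conn_iff {P ι J : Type} [DecidableEq J] {D : Rules P ι J} {K : Type} [Group K]
    {X : Multiplicative (J → ℤ) →* K} {t : P → K} {r : ι → K} {R : ℕ → ℕ → Prop} {B : P} {e : J}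
    (hst : ∀ p p' v v', (∃ ρ ∈ Subgroup.closure (Set.range r), T X t p v = ρ * T X t p' v' * ρ⁻¹) ↔
      Relation.EqvGen (Step D) (p, v) (p', v'))
    (hconn : ∀ k k' : ℤ, Relation.EqvGen (Step D) (B, Pi.single e k) (B, Pi.single e k') ↔
        (k = k' ∨ ∃ a b : ℕ, k = a ∧ k' = b ∧ R a b)) (n m : ℤ) :
    Conn (Subgroup.closure (Set.range r)) (X (Multiplicative.ofAdd (Pi.single e 1))) (t B) n m ↔
      (n = m ∨ ∃ a b : ℕ, n = a ∧ m = b ∧ R a b) := by
  unfold Conn
  rw [← hconn, ← hst]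
  simp only [s_eq]

section final

variable {P ι J : Type} [DecidableEq J] {D : Rules P ι J} {K : Type} [Group K]
  {X : Multiplicative (J → ℤ) →* K} {t : P → K} {r : ι → K} {B : P} {e : J}
  {U : Type} [Group U] {φ : K →* U} {z u v τ : U}

/-- The generators of the final group. -/
def gens (X : Multiplicative (J → ℤ) →* K) (t : P → K) (r : ι → K) (φ : K →* U) (z u v τ : U)
    {G : Type} [Group G] (ο : U →* G) (c : G) : Gen P ι J → G
  | Sum.inl j => ο (φ (X (Multiplicative.ofAdd (Pi.single j 1))))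
  | Sum.inr (Sum.inl p) => ο (φ (t p))
  | Sum.inr (Sum.inr (Sum.inl i)) => ο (φ (r i))
  | Sum.inr (Sum.inr (Sum.inr 0)) => ο z
  | Sum.inr (Sum.inr (Sum.inr 1)) => ο u
  | Sum.inr (Sum.inr (Sum.inr 2)) => ο v
  | Sum.inr (Sum.inr (Sum.inr 3)) => ο τ
  | Sum.inr (Sum.inr (Sum.inr 4)) => c

/-- `X` takes values in the subgroup generated by the `X (single j 1)`. -/
theorem X_mem [Finite J] (X : Multiplicative (J → ℤ) →* K) (w : Multiplicative (J → ℤ)) :
    X w ∈ Subgroup.closure (Set.range fun j => X (Multiplicative.ofAdd (Pi.single j 1))) := by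
  classical
  have := Fintype.ofFinite J
  have h1 : w = ∏ j, Multiplicative.ofAdd (Pi.single j (w.toAdd j)) := by
    apply Multiplicative.toAdd.injective
    rw [toAdd_prod]
    simp only [toAdd_ofAdd]
    exact (Finset.univ_sum_single _).symm
  rw [h1, ← Subgroup.mem_comap]
  refine Subgroup.prod_mem _ fun j _ => ?_
  rw [Subgroup.mem_comap, X_single j]
  exact Subgroup.zpow_mem _ (Subgroup.subset_closure (Set.mem_range_self j)) _

theorem gens_closure [Finite J] {G : Type} [Group G] (ο : U →* G) (c : G)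
    (hgen : Subgroup.closure (Set.range X ∪ Set.range t ∪ Set.range r) = ⊤)
    (hgenU : Subgroup.closure (Set.range φ ∪ {z, u, v, τ}) = ⊤)
    (hgenG : Subgroup.closure (Set.range ο ∪ {c}) = ⊤) :
    Subgroup.closure (Set.range (gens X t r φ z u v τ ο c)) = ⊤ := by
  have hg : ∀ a, gens X t r φ z u v τ ο c a ∈
      Subgroup.closure (Set.range (gens X t r φ z u v τ ο c)) :=
    fun a => Subgroup.subset_closure ⟨a, rfl⟩
  set S := Subgroup.closure (Set.range (gens X t r φ z u v τ ο c)) with hS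
  have h1 : ∀ k, ο (φ k) ∈ S := by
    intro k
    have hk : k ∈ Subgroup.closure (Set.range X ∪ Set.range t ∪ Set.range r) := by
      rw [hgen]; trivial
    have : Subgroup.closure (Set.range X ∪ Set.range t ∪ Set.range r) ≤ S.comap (ο.comp φ) := by
      rw [Subgroup.closure_le]
      rintro _ ((⟨w, rfl⟩ | ⟨p, rfl⟩) | ⟨i, rfl⟩)
      · have h2 := X_mem X w
        have h3 : Subgroup.closure (Set.range fun j => X (Multiplicative.ofAdd (Pi.single j 1))) ≤
            S.comap (ο.comp φ) := by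
          rw [Subgroup.closure_le]
          rintro _ ⟨j, rfl⟩
          exact hg (Sum.inl j)
        exact h3 h2
      · exact hg (Sum.inr (Sum.inl p))
      · exact hg (Sum.inr (Sum.inr (Sum.inl i)))
    exact this hk
  have h2 : ∀ x, ο x ∈ S := by
    intro x
    have hx : x ∈ Subgroup.closure (Set.range φ ∪ {z, u, v, τ}) := by rw [hgenU]; trivial
    have : Subgroup.closure (Set.range φ ∪ {z, u, v, τ}) ≤ S.comap ο := by
      rw [Subgroup.closure_le]
      rintro _ (⟨k, rfl⟩ | rfl | rfl | rfl | rfl)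
      · exact h1 k
      · exact hg (Sum.inr (Sum.inr (Sum.inr 0)))
      · exact hg (Sum.inr (Sum.inr (Sum.inr 1)))
      · exact hg (Sum.inr (Sum.inr (Sum.inr 2)))
      · exact hg (Sum.inr (Sum.inr (Sum.inr 3)))
    exact this hx
  rw [eq_top_iff, ← hgenG, Subgroup.closure_le]
  rintro _ (⟨x, rfl⟩ | rfl)
  · exact h2 x
  · exact hg (Sum.inr (Sum.inr (Sum.inr 4)))

/-- The presented group is the amalgam. -/
theorem pres_iso [Finite J] (hAm : StmAmUP) (L : List (List (Gen P ι J × Bool)))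
    (hL : ∀ (H : Type) [Group H] (h : Gen P ι J → H),
      (∀ w ∈ L, FreeGroup.lift h (FreeGroup.mk w) = 1) ↔
      ∃ X : Multiplicative (J → ℤ) →* H,
        (∀ j, X (Multiplicative.ofAdd (Pi.single j 1)) = h (Sum.inl j)) ∧
        GenRel D B e H X (fun p => h (Sum.inr (Sum.inl p)))
          (fun i => h (Sum.inr (Sum.inr (Sum.inl i)))) (h (Sum.inr (Sum.inr (Sum.inr 0))))
          (h (Sum.inr (Sum.inr (Sum.inr 1)))) (h (Sum.inr (Sum.inr (Sum.inr 2))))
          (h (Sum.inr (Sum.inr (Sum.inr 3)))) (h (Sum.inr (Sum.inr (Sum.inr 4)))))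
    (hrel : Rel D K X t r)
    (hgen : Subgroup.closure (Set.range X ∪ Set.range t ∪ Set.range r) = ⊤)
    (hup : ∀ (H : Type) [Group H] (X' : Multiplicative (J → ℤ) →* H) (t' : P → H) (r' : ι → H),
      Rel D H X' t' r' → ∃ Φ : K →* H, (∀ v, Φ (X v) = X' v) ∧ (∀ p, Φ (t p) = t' p) ∧
        ∀ i, Φ (r i) = r' i)
    (hrelU : RelU (Subgroup.closure (Set.range X ∪ Set.range r)) (Subgroup.closure (Set.range r))
      (X (Multiplicative.ofAdd (Pi.single e 1))) (t B) U φ z u v τ)
    (hgenU : Subgroup.closure (Set.range φ ∪ {z, u, v, τ}) = ⊤)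
    (hupU : ∀ (H : Type) [Group H] (φ' : K →* H) (z' u' v' τ' : H),
      RelU (Subgroup.closure (Set.range X ∪ Set.range r)) (Subgroup.closure (Set.range r))
      (X (Multiplicative.ofAdd (Pi.single e 1))) (t B) H φ' z' u' v' τ' →
      ∃ Φ : U →* H, (∀ k, Φ (φ k) = φ' k) ∧ Φ z = z' ∧ Φ u = u' ∧ Φ v = v' ∧ Φ τ = τ')
    (n : ℕ) (g : ℤ) (β : Bg g →* U)
    (hβz : β (HNNExtension.of (Multiplicative.ofAdd 1)) = z)
    (hβt : β HNNExtension.t = φ (s (X (Multiplicative.ofAdd (Pi.single e 1))) (t B) n) * τ *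
      (φ (s (X (Multiplicative.ofAdd (Pi.single e 1))) (t B) n))⁻¹) :
    Nonempty (PresentedGroup {g : FreeGroup (Gen P ι J) | ∃ w ∈
      W (Sum.inr (Sum.inr (Sum.inr 4))) (Sum.inl e) (Sum.inr (Sum.inl B))
        (Sum.inr (Sum.inr (Sum.inr 3))) n :: L, g = FreeGroup.mk w} ≃* Amal β) := by
  obtain ⟨ο, c, hc5, hcc, hgenG, hupG⟩ := hAm _ _ β
  have hmaps : ∀ {K' H' : Type} [Group K'] [Group H'] (f : K' →* H') (x y : K') (m : ℤ),
      f (s x y m) = s (f x) (f y) m := by
    intro K' H' _ _ f x y m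
    simp [s]
  refine up_iso _ _ (gens X t r φ z u v τ ο c) (gens_closure ο c hgen hgenU hgenG) ?_ ?_
  · rintro _ ⟨w, hw, rfl⟩
    rcases List.mem_cons.1 hw with rfl | hw
    · rw [W_iff]
      have h1 := hcc HNNExtension.t
      rw [hβt] at h1
      simp only [gens]
      rw [← hmaps ο, ← hmaps φ]
      simpa using h1
    · refine (hL _ (gens X t r φ z u v τ ο c)).2 ⟨(ο.comp φ).comp X, fun j => rfl, ?_⟩ w hw
      refine gen_of_relU hrel B e (ο.comp φ) (z := ο z) (u := ο u) (v := ο v) (τ := ο τ) (c := c)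
        ?_ hc5 ?_
      · refine ⟨?_, ?_, ?_, ?_, ?_, ?_, ?_, ?_⟩
        · intro q hq
          exact (hrelU.zq q hq).map ο
        · intro k
          exact (hrelU.uk k).map ο
        · have := congrArg ο hrelU.uz
          simpa using this
        · have := hrelU.vx.map ο
          simpa using this
        · have := hrelU.vt.map ο
          simpa using this
        · intro k
          have := (hrelU.τk k).map ο
          simpa using this
        · have := hrelU.τz.map ο
          simpa using this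
        · intro ρ hρ
          exact (hrelU.τr ρ hρ).map ο
      · have := hcc (HNNExtension.of (Multiplicative.ofAdd 1))
        rwa [hβz] at this
  · intro H _ h hw
    obtain ⟨X', hX', hG⟩ := (hL H h).1 fun w hwL => hw _ ⟨w, List.mem_cons_of_mem _ hwL, rfl⟩
    have hW := hw _ ⟨_, List.mem_cons_self, rfl⟩
    rw [W_iff] at hW
    obtain ⟨Φ1, a1, a2, a3⟩ := hup H X' _ _ hG.rel
    have hG' : GenRel D B e H X' (fun p => Φ1 (t p)) (fun i => Φ1 (r i))
        (h (Sum.inr (Sum.inr (Sum.inr 0)))) (h (Sum.inr (Sum.inr (Sum.inr 1))))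
        (h (Sum.inr (Sum.inr (Sum.inr 2)))) (h (Sum.inr (Sum.inr (Sum.inr 3))))
        (h (Sum.inr (Sum.inr (Sum.inr 4)))) := by
      simp only [a2, a3]
      exact hG
    have hRU := relU_of_gen hgen B e Φ1 a1 hG'
    obtain ⟨Φ2, b0, b1, b2, b3, b4⟩ := hupU H Φ1 _ _ _ _ hRU
    obtain ⟨Φ3, c1, c2⟩ := hupG H Φ2 (h (Sum.inr (Sum.inr (Sum.inr 4)))) hG.c5 (by
      intro e'
      refine commute_beta g β Φ2 _ ?_ ?_ e'
      · rw [hβz, b1]
        exact hG.cz
      · rw [hβt, map_mul, map_mul, map_inv, b0, b4, hmaps Φ1, a2 B, a1, hX' e]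
        exact hW)
    refine ⟨Φ3, ?_⟩
    rintro (j | p | i | k)
    · show Φ3 (ο (φ (X _))) = _
      rw [c1, b0, a1, hX']
    · show Φ3 (ο (φ (t p))) = _
      rw [c1, b0, a2]
    · show Φ3 (ο (φ (r i))) = _
      rw [c1, b0, a3]
    · fin_cases k
      · show Φ3 (ο z) = _
        rw [c1, b1]; rfl
      · show Φ3 (ο u) = _
        rw [c1, b2]; rfl
      · show Φ3 (ο v) = _
        rw [c1, b3]; rfl
      · show Φ3 (ο τ) = _
        rw [c1, b4]; rfl
      · exact c2

end final

end Pool.Agent.Y817.ISO
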