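import Pool.Agent.Y817.ISO.Main

set_option autoImplicit false

namespace Pool.Agent.Y817.ISO

open Pool.Agent.Helper844.Sys

theorem main (hArith : StmArith) (hGraph : StmGraph) (hK : StmK) (hTower : StmTower)
    (hAm : StmAmUP) (hInv : StmInv) (hCode : StmCode) (hPres : StmPres) (hRE : StmRE) :
    ∀ E : ℕ × List (List (ℕ × Bool)) → ℕ × List (List (ℕ × Bool)) → Prop,
      (∀ a b, E a b ↔ Nonempty (PG a ≃* PG b)) →
      REPred (fun p : (ℕ × List (List (ℕ × Bool))) × (ℕ × List (List (ℕ × Bool))) => E p.1 p.2) ∧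
      ∀ R : ℕ → ℕ → Prop, Equivalence R → REPred (fun p : ℕ × ℕ => R p.1 p.2) →
        ∃ f : ℕ → ℕ × List (List (ℕ × Bool)), Computable f ∧ ∀ x y, R x y ↔ E (f x) (f y) := by
  intro E hE
  refine ⟨?_, ?_⟩
  · have : (fun p : (ℕ × List (List (ℕ × Bool))) × (ℕ × List (List (ℕ × Bool))) => E p.1 p.2) =
        fun p => Nonempty (PG p.1 ≃* PG p.2) := by
      funext p
      exact propext (hE _ _)
    rw [this]
    exact hRE
  · intro R hR hRe
    classical
    obtain ⟨X0, _, n0, m0, L0, hnm, hdef⟩ := hArith R hRe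
    obtain ⟨P, ι, J, _, _, _, _, D, B, e, hconn⟩ := hGraph R hR X0 n0 m0 L0 hnm hdef
    obtain ⟨K, _, X, t, r, hrel, htf, hgen, hup, hst⟩ := hK P ι J D
    obtain ⟨π, hbot⟩ := exists_bot hrel htf hgen hup B e
    obtain ⟨U, _, φ, z, u, v, τ, htfU, hrelU, hgenU, hupU, hβ⟩ := hTower K _ _ π _ _ hbot
    obtain ⟨L, hL⟩ := hPres P ι J D B e
    have hc := conn_iff (D := D) (X := X) (t := t) (r := r) (B := B) (e := e) hst hconn
    -- the least element of the class
    have hex : ∀ n : ℕ, ∃ m, R n m := fun n => ⟨n, hR.refl n⟩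
    let μ : ℕ → ℕ := fun n => Nat.find (hex n)
    have hμ : ∀ n, R n (μ n) := fun n => Nat.find_spec (hex n)
    have hμle : ∀ n m, R n m → μ n ≤ m := fun n m h => Nat.find_min' (hex n) h
    have hcN : ∀ (n : ℕ) (m : ℤ), Conn (Subgroup.closure (Set.range r))
        (X (Multiplicative.ofAdd (Pi.single e 1))) (t B) n m → ∃ b : ℕ, m = b ∧ R n b := by
      intro n m h
      rcases (hc n m).1 h with rfl | ⟨a, b, h1, h2, h3⟩
      · exact ⟨n, rfl, hR.refl n⟩
      · have : n = a := by exact_mod_cast h1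
        subst this
        exact ⟨b, h2, h3⟩
    have hexβ : ∀ n : ℕ, ∃ β : Bg (2 ^ (μ n + 1)) →* U, Function.Injective β ∧
        β (HNNExtension.of (Multiplicative.ofAdd 1)) = z ∧
        β HNNExtension.t = φ (s (X (Multiplicative.ofAdd (Pi.single e 1))) (t B) n) * τ *
          (φ (s (X (Multiplicative.ofAdd (Pi.single e 1))) (t B) n))⁻¹ := by
      intro n
      apply hβ n (Int.natCast_nonneg n)
      · intro m h
        obtain ⟨b, rfl, -⟩ := hcN n m h
        exact Int.natCast_nonneg b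
      · intro m h
        obtain ⟨b, rfl, hb⟩ := hcN n m h
        rw [Int.toNat_natCast]
        exact pow_dvd_pow _ (Nat.succ_le_succ (hμle n b hb))
      · refine ⟨μ n, (hc n (μ n)).2 (Or.inr ⟨n, μ n, rfl, rfl, hμ n⟩), ?_⟩
        rw [Int.toNat_natCast]
    choose β hβinj hβz hβt using hexβ
    obtain ⟨f, hf, hfiso⟩ := hCode (Gen P ι J) (Sum.inr (Sum.inr (Sum.inr 4))) (Sum.inl e)
      (Sum.inr (Sum.inl B)) (Sum.inr (Sum.inr (Sum.inr 3))) L
    have hiso : ∀ n, Nonempty (PG (f n) ≃* Amal (β n)) := by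
      intro n
      obtain ⟨i1⟩ := hfiso n
      obtain ⟨i2⟩ := pres_iso hAm L hL hrel hgen hup hrelU hgenU hupU n _ (β n) (hβz n) (hβt n)
      exact ⟨i1.trans i2⟩
    refine ⟨f, hf, fun x y => ?_⟩
    rw [hE]
    obtain ⟨ix⟩ := hiso x
    obtain ⟨iy⟩ := hiso y
    constructor
    · intro hxy
      obtain ⟨ρ, hρ, hρs⟩ := (hc x y).2 (Or.inr ⟨x, y, rfl, rfl, hxy⟩)
      have hμxy : μ x = μ y := by
        apply le_antisymm
        · exact hμle x _ (hR.trans hxy (hμ y))
        · exact hμle y _ (hR.trans (hR.symm hxy) (hμ x))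
      have key : ∀ (a b : ℕ) (hab : a = b) (β1 : Bg (2 ^ (a + 1)) →* U)
          (β2 : Bg (2 ^ (b + 1)) →* U),
          β1 (HNNExtension.of (Multiplicative.ofAdd 1)) = z →
          β2 (HNNExtension.of (Multiplicative.ofAdd 1)) = z →
          β1 HNNExtension.t = φ ρ * β2 HNNExtension.t * (φ ρ)⁻¹ →
          Nonempty (Amal β1 ≃* Amal β2) := by
        intro a b hab
        subst hab
        intro β1 β2 h1 h2 h3
        refine amal_iso hAm β1 β2 (φ ρ) (h1.trans h2.symm) ?_ h3
        rw [h1]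
        exact (hrelU.zq ρ (Subgroup.closure_mono Set.subset_union_right hρ)).symm
      obtain ⟨i⟩ := key _ _ hμxy (β x) (β y) (hβz x) (hβz y) (by
        rw [hβt, hβt, hρs]
        have hcom := hrelU.τr ρ hρ
        have h4 : φ ρ⁻¹ * τ = τ * φ ρ⁻¹ := by
          rw [map_inv]
          exact (hcom.inv_right.symm).eq
        simp only [map_mul, map_inv, mul_inv_rev, inv_inv, mul_assoc]
        rw [map_inv] at h4
        simp only [← mul_assoc] at *
        simp only [mul_assoc, mul_right_inj]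
        simp only [← mul_assoc, mul_left_inj]
        rw [h4]
        simp [mul_assoc])
      exact ⟨(ix.trans i).trans iy.symm⟩
    · rintro ⟨i⟩
      have h1 : μ x = μ y := hInv U _ _ (β x) (β y) htfU (hβinj x) (hβinj y)
        ⟨(ix.symm.trans i).trans iy⟩
      have h2 := hμ x
      rw [h1] at h2
      exact hR.trans h2 (hR.symm (hμ y))

end Pool.Agent.Y817.ISO
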